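import Pool.Agent.X162.QuadThm

/-!
# MP_bff4fe_gt, Q1: the inequality holds, with equality only for rectangles

`IsConvexFigure`, `perimeter`, `IsBoundaryCurve`, `QuadrisectPerimeter` (in
`Pool/Agent/X162/QuadCurve.lean`) and `IsRectangle` (in `Pool/Agent/X162/QuadMain.lean`) are the
definitions used in the statement.

The proof: let the chords cross at `O`, put the axes along the chords, and let `a, b` be the
distances from `O` to the ends of one boundary arc of length `l = L/4`. With supporting unit normals
`(n₁, n₂)`, `(m₁, m₂)` at the two ends, covering the arc by the boundary of the polygon cut out of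
the quadrant by the supporting lines gives `l (1 + n₂ + m₁) ≤ a (1 + n₂) + b (1 + m₁)`; adding the
four inequalities, the normal components cancel and `4 l ≤ 2 (|c₁| + |c₂|)`.
-/

namespace Pool.Agent.Results.MP_bff4fe_gt.PerpQuadrisect

open Pool.Agent.X162.Quad
open scoped RealInnerProductSpace ENNReal

/-- For every plane convex figure and every pair of perpendicular chords quadrisecting its
perimeter, the perimeter is at most twice the total length of the chords, with equality only if the
figure is a rectangle. -/
theorem result (F : Set (EuclideanSpace ℝ (Fin 2))) (hF : IsConvexFigure F)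
    (p₁ p₂ q₁ q₂ : EuclideanSpace ℝ (Fin 2)) (hq : QuadrisectPerimeter F p₁ p₂ q₁ q₂)
    (hperp : ⟪p₁ - q₁, p₂ - q₂⟫ = 0) :
    perimeter F ≤ ENNReal.ofReal (2 * (dist p₁ q₁ + dist p₂ q₂)) ∧
      (perimeter F = ENNReal.ofReal (2 * (dist p₁ q₁ + dist p₂ q₂)) → IsRectangle F) :=
  main hF hq hperp

end Pool.Agent.Results.MP_bff4fe_gt.PerpQuadrisect
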